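import Mathlib
import Pool.Agent.W811.Stu.Stmts3

/-!
The flow of the leaf field.
-/

set_option autoImplicit false

open NormedSpace

namespace Pool.Agent.W374.SD

open Pool.Agent.W811.Stu

/-! ### the linear flow -/

/-- the generator -/
noncomputable def gen (y : ℝ) : ℝ × ℝ →L[ℝ] ℝ × ℝ :=
  (ContinuousLinearMap.snd ℝ ℝ ℝ).prod (-(ContinuousLinearMap.fst ℝ ℝ ℝ)) +
    y • ((-(ContinuousLinearMap.fst ℝ ℝ ℝ)).prod (ContinuousLinearMap.snd ℝ ℝ ℝ))

lemma gen_apply (y : ℝ) (v : ℝ × ℝ) : gen y v = (v.2 - y * v.1, y * v.2 - v.1) := by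
  ext <;> simp [gen] <;> ring

lemma gen_cont : Continuous gen := by
  unfold gen
  fun_prop

/-- the flow on the plane -/
noncomputable def fl (t y : ℝ) (v : ℝ × ℝ) : ℝ × ℝ := exp (t • gen y) v

lemma fl_zero (y : ℝ) (v : ℝ × ℝ) : fl 0 y v = v := by
  simp [fl]

lemma fl_der (y : ℝ) (v : ℝ × ℝ) (t : ℝ) :
    HasDerivAt (fun s => fl s y v) (gen y (fl t y v)) t := by
  have h := hasDerivAt_exp_smul_const' (𝕂 := ℝ) (gen y) t
  have h2 := h.clm_apply (hasDerivAt_const t v)
  simp only [map_zero, add_zero] at h2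
  exact h2

lemma fl_cont : Continuous fun q : ℝ × ℝ × (ℝ × ℝ) => fl q.1 q.2.1 q.2.2 := by
  unfold fl
  have h0 : Continuous (exp : (ℝ × ℝ →L[ℝ] ℝ × ℝ) → (ℝ × ℝ →L[ℝ] ℝ × ℝ)) := by
    rw [continuous_iff_continuousAt]
    exact fun x => (exp_analytic (𝕂 := ℝ) x).continuousAt
  have h1 : Continuous fun q : ℝ × ℝ × (ℝ × ℝ) => exp (q.1 • gen q.2.1) :=
    h0.comp (continuous_fst.smul (gen_cont.comp (continuous_fst.comp continuous_snd)))
  exact h1.clm_apply (continuous_snd.comp continuous_snd)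

/-- the flow of `fH` -/
noncomputable def HH (t : ℝ) (p : P3) : P3 :=
  ⟨(fl t p.y (p.z, p.x)).1, p.y, (fl t p.y (p.z, p.x)).2⟩

lemma HH_zero (p : P3) : HH 0 p = p := by
  unfold HH; rw [fl_zero]

lemma HH_der (p : P3) (s t : ℝ) :
    HasDer (fun τ => HH (s * τ) p) (lc s (fH (HH (s * t) p)) 0 (fH (HH (s * t) p))) t := by
  have h0 := fl_der p.y (p.z, p.x) (s * t)
  have hm : HasDerivAt (fun τ : ℝ => s * τ) s t := by
    simpa using (hasDerivAt_id t).const_mul s
  have h := h0.scomp t hm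
  rw [gen_apply] at h
  have h1 := (ContinuousLinearMap.fst ℝ ℝ ℝ).hasFDerivAt.comp_hasDerivAt t h
  have h2 := (ContinuousLinearMap.snd ℝ ℝ ℝ).hasFDerivAt.comp_hasDerivAt t h
  have e1 : (lc s (fH (HH (s * t) p)) 0 (fH (HH (s * t) p))).z =
      s * ((fl (s * t) p.y (p.z, p.x)).2 - p.y * (fl (s * t) p.y (p.z, p.x)).1) := by
    simp only [lc, fH, HH, gX]; ring
  have e2 : (lc s (fH (HH (s * t) p)) 0 (fH (HH (s * t) p))).x =
      s * (p.y * (fl (s * t) p.y (p.z, p.x)).2 - (fl (s * t) p.y (p.z, p.x)).1) := by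
    simp only [lc, fH, HH, gA]; ring
  refine ⟨?_, ?_, ?_⟩
  · rw [e1]; exact h1
  · have : (lc s (fH (HH (s * t) p)) 0 (fH (HH (s * t) p))).y = 0 := by
      simp only [lc, fH]; ring
    rw [this]
    exact hasDerivAt_const _ _
  · rw [e2]; exact h2

lemma HH_onS {δ : ℝ} {p : P3} (h : OnS δ p) (t : ℝ) : OnS δ (HH t p) := by
  have key : ∀ τ, HasDerivAt (fun τ => (HH τ p).x ^ 2 + (HH τ p).y ^ 2 + (HH τ p).z ^ 2
      - 2 * (HH τ p).x * (HH τ p).y * (HH τ p).z) 0 τ := by
    intro τ
    have h123 : HasDer (fun τ => HH τ p) (lc 1 (fH (HH τ p)) 0 (fH (HH τ p))) τ := by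
      have := HH_der p 1 τ
      simp only [one_mul] at this
      exact this
    obtain ⟨h1, h2, h3⟩ := h123
    have := (((h3.pow 2).add (h2.pow 2)).add (h1.pow 2)).sub (((h3.const_mul 2).mul h2).mul h1)
    refine this.congr_deriv ?_
    simp only [lc, fH, gX, gA, Pi.mul_apply]
    push_cast
    ring
  have h0 := is_const_of_deriv_eq_zero (fun τ => (key τ).differentiableAt) (fun τ => (key τ).deriv)
    t 0
  unfold OnS at *
  rw [h0, HH_zero]
  exact h

lemma HH_cont : Continuous fun v : ℝ × (ℝ × ℝ × ℝ) => toL (HH v.1 (ofL v.2)) := by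
  have h := fl_cont.comp (continuous_fst.prodMk ((continuous_fst.comp
    (continuous_snd.comp continuous_snd)).prodMk ((continuous_fst.comp continuous_snd).prodMk
    (continuous_snd.comp (continuous_snd.comp continuous_snd)))) :
      Continuous fun v : ℝ × (ℝ × ℝ × ℝ) => (v.1, v.2.2.1, (v.2.1, v.2.2.2)))
  exact (continuous_fst.comp h).prodMk ((continuous_fst.comp
    (continuous_snd.comp continuous_snd)).prodMk (continuous_snd.comp h))

/-! ### the inverse of the trace maps -/

/-- the inverse of `stepR` -/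
def Rinv (p : P3) : P3 := ⟨2 * p.z * p.y - p.x, p.y, p.z⟩

lemma stepR_Rinv (p : P3) : stepR (Rinv p) = p := by
  unfold stepR Rinv; ext <;> simp only; ring

lemma Rinv_stepR (p : P3) : Rinv (stepR p) = p := by
  unfold stepR Rinv; ext <;> simp only; ring

lemma iter_Rinv (k : ℕ) (p : P3) : stepR^[k] (Rinv^[k] p) = p :=
  Function.LeftInverse.iterate (f := Rinv) (g := stepR) stepR_Rinv k p

lemma Rinv_iter (k : ℕ) (p : P3) : Rinv^[k] (stepR^[k] p) = p :=
  Function.LeftInverse.iterate (f := stepR) (g := Rinv) Rinv_stepR k p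

lemma stepS_stepS (p : P3) : stepS (stepS p) = p := rfl

/-- the inverse of `orb d · m` -/
def psi (d : ℕ → ℕ) : ℕ → P3 → P3
  | 0, p => p
  | m + 1, p => psi d m (Rinv^[d m] (stepS p))

lemma orb_psi (d : ℕ → ℕ) (m : ℕ) (p : P3) : orb d (psi d m p) m = p := by
  induction m generalizing p with
  | zero => rfl
  | succ m ih =>
    show stepT (d m) (orb d (psi d m (Rinv^[d m] (stepS p))) m) = p
    rw [ih]
    unfold stepT
    rw [iter_Rinv]
    rfl

lemma psi_orb (d : ℕ → ℕ) (m : ℕ) (p : P3) : psi d m (orb d p m) = p := by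
  induction m with
  | zero => rfl
  | succ m ih =>
    show psi d m (Rinv^[d m] (stepS (stepT (d m) (orb d p m)))) = p
    unfold stepT
    rw [stepS_stepS, Rinv_iter, ih]

lemma Rinv_onS {δ : ℝ} {p : P3} (h : OnS δ p) : OnS δ (Rinv p) := by
  unfold OnS Rinv at *; simp only; linear_combination h

lemma Rinv_iter_onS {δ : ℝ} {p : P3} (h : OnS δ p) (k : ℕ) : OnS δ (Rinv^[k] p) := by
  induction k with
  | zero => exact h
  | succ k ih => rw [Function.iterate_succ_apply']; exact Rinv_onS ih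

lemma psi_onS {δ : ℝ} (d : ℕ → ℕ) (m : ℕ) {p : P3} (h : OnS δ p) : OnS δ (psi d m p) := by
  induction m generalizing p with
  | zero => exact h
  | succ m ih => exact ih (Rinv_iter_onS h.S _)

lemma Rinv_der {p : ℝ → P3} {u : P3} {t : ℝ} (h : HasDer p u t) :
    ∃ u', HasDer (fun s => Rinv (p s)) u' t := by
  obtain ⟨h1, h2, h3⟩ := h
  exact ⟨⟨_, _, _⟩, ((h1.const_mul 2).mul h2).sub h3, h2, h1⟩

lemma Rinv_iter_der {p : ℝ → P3} {u : P3} {t : ℝ} (h : HasDer p u t) (k : ℕ) :
    ∃ u', HasDer (fun s => Rinv^[k] (p s)) u' t := by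
  induction k with
  | zero => exact ⟨u, h⟩
  | succ k ih =>
    obtain ⟨u', hu⟩ := ih
    obtain ⟨u'', hu'⟩ := Rinv_der hu
    refine ⟨u'', ?_⟩
    have e : (fun s => Rinv^[k + 1] (p s)) = fun s => Rinv (Rinv^[k] (p s)) := by
      funext s; rw [Function.iterate_succ_apply']
    rw [e]
    exact hu'

lemma psi_der (d : ℕ → ℕ) (m : ℕ) {p : ℝ → P3} {u : P3} {t : ℝ} (h : HasDer p u t) :
    ∃ u', HasDer (fun s => psi d m (p s)) u' t := by
  induction m generalizing p u with
  | zero => exact ⟨u, h⟩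
  | succ m ih =>
    obtain ⟨u', hu⟩ := Rinv_iter_der h.S (d m)
    exact ih hu

lemma Rinv_cont : Continuous fun v => toL (Rinv (ofL v)) := by
  unfold toL Rinv ofL; simp only; fun_prop

lemma Rinv_iter_cont (k : ℕ) : Continuous fun v => toL (Rinv^[k] (ofL v)) := by
  induction k with
  | zero => exact continuous_id
  | succ k ih =>
    have := Rinv_cont.comp ih
    simp only [Function.comp_def, ofL_toL, ← Function.iterate_succ_apply' Rinv] at this
    exact this

lemma psi_cont (d : ℕ → ℕ) (m : ℕ) : Continuous fun v => toL (psi d m (ofL v)) := by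
  induction m with
  | zero => exact continuous_id
  | succ m ih =>
    have := ih.comp ((Rinv_iter_cont (d m)).comp cont_stepS)
    simp only [Function.comp_def, ofL_toL] at this
    exact this

/-! ### injectivity of the tangent maps -/

lemma dR_inj (p : P3) {u v : P3} (h : dR p u = dR p v) : u = v := by
  have h1 := congrArg P3.z h
  have h2 := congrArg P3.y h
  have h3 := congrArg P3.x h
  simp only [dR] at h1 h2 h3
  rw [h1, h2] at h3
  ext
  · linarith
  · exact h2
  · exact h1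

lemma dRk_inj (k : ℕ) (p : P3) {u v : P3} (h : dRk k p u = dRk k p v) : u = v := by
  induction k with
  | zero => exact h
  | succ k ih => exact ih (dR_inj _ h)

lemma dS_inj {u v : P3} (h : dS u = dS v) : u = v := by
  have h1 := congrArg P3.z h
  have h2 := congrArg P3.y h
  have h3 := congrArg P3.x h
  ext
  · exact h2
  · exact h1
  · exact h3

lemma dorb_inj (d : ℕ → ℕ) (m : ℕ) (p : P3) {u v : P3} (h : dorb d p u m = dorb d p v m) :
    u = v := by
  induction m with
  | zero => exact h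
  | succ m ih => exact ih (dRk_inj _ _ (dS_inj h))

lemma HasDer.unique {p : ℝ → P3} {u v : P3} {t : ℝ} (h : HasDer p u t) (h' : HasDer p v t) :
    u = v := by
  ext
  · exact h.1.unique h'.1
  · exact h.2.1.unique h'.2.1
  · exact h.2.2.unique h'.2.2

/-- **The flow of the leaf field.** -/
theorem flow (h : TEquiv) : TFlow := by
  intro d m
  obtain ⟨s, hs, hE⟩ := h d m
  refine ⟨fun t p => psi d m (HH (s * t) (orb d p m)), ?_, ?_, ?_, ?_, ?_⟩
  · intro p
    simp only [mul_zero, HH_zero, psi_orb]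
  · intro p t
    have h1 := HH_der (orb d p m) s t
    obtain ⟨u, hu⟩ := psi_der d m h1
    have h2 := hu.orb d m
    simp only [orb_psi] at h2
    have h3 := HasDer.unique h2 h1
    have h4 := hE (psi d m (HH (s * t) (orb d p m)))
    rw [orb_psi] at h4
    have h5 := dorb_inj d m _ (h3.trans h4.symm)
    rw [← h5]
    exact hu
  · intro δ p t hp
    exact psi_onS d m (HH_onS (hp.orb d m) _)
  · intro p t
    simp only [orb_psi]
    rfl
  · have h1 : Continuous fun v : ℝ × (ℝ × ℝ × ℝ) => ((s * v.1, toL (orb d (ofL v.2) m)) :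
        ℝ × (ℝ × ℝ × ℝ)) :=
      (continuous_const.mul continuous_fst).prodMk ((cont_orb d m).comp continuous_snd)
    have := (psi_cont d m).comp (HH_cont.comp h1)
    simp only [Function.comp_def, ofL_toL] at this
    exact this

end Pool.Agent.W374.SD
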